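import Mathlib
import Pool.Agent.L0h46.AP.Main
import Pool.Agent.L0h46.AP.Two
import Pool.Agent.L0h46.AP.Inst2
import Pool.Agent.L0h46.AP.Cls
import Pool.Agent.L0h46.AP.Unip

/-!
# Residually unipotent representations of `G_K` are governed by the inertia group of one place

Let `k` be a number field, `p` a prime number, `S` a set of prime numbers, `P` a place of `k̄` and let
`D` be the inertia group or the decomposition group of `P`. We call `D` *total* if there is no Galois
extension `E / k` of degree `p`, unramified outside `S`, such that `D` acts trivially on `E`.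

Let `K` be a field (for example a CM field) which is contained in a finite Galois extension of `k`
of degree a power of `p` and unramified outside `S`. The extension `K / k` need not be Galois. We
study the continuous representations `R : G_K → GL_n(ℚ̄_p)` of any dimension, which are unramified
outside `S` and residually unipotent: all eigenvalues of all `R(h)` are congruent to `1` modulo the
maximal ideal, in other words the semisimplified residual representation is trivial.

Theorem. Assume that `D` is total.
* The image of `D ∩ G_K` under `R` is the full image of `G_K`, and even more: any two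
  representations `R, R'` of this kind have the property that every pair `(R(h), R'(h))` is of the form
  `(R(δ), R'(δ))` with `δ ∈ D ∩ G_K`. So `Hom_D(R, R') = Hom_{G_K}(R, R')`: a representation of this
  kind is determined by its restriction to the inertia group (the decomposition group) of ONE place.
* If `R` is irreducible, then `R` is induced from a representation `V'` of `G_L`, where `L / K` is
  contained in a Galois extension of `K` of degree a power of `p`, such that `V'` is strongly
  irreducible at the one place `P`: it has no nontrivial subspace which is stable under a subgroup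
  of finite index of `D ∩ G_K`. The number `dim V'` divides the dimensions of all subspaces of `R`
  which are potentially stable under `D`.
* If `p` does not divide the dimension of the irreducible representation `R`, then `R` itself is
  strongly irreducible at `P`: there is no nontrivial subspace which is potentially stable under `D`.
* If the irreducible representation `R` potentially contains a line at `P` (for example if `R` is
  potentially ordinary at `P`), then `R` is monomial. If `R` is moreover geometric, then the character is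
  algebraic and `R` is automorphic, by class field theory and by the automorphic induction of Arthur
  and Clozel (this last sentence is not part of the formal proof).

The group `D` is total in the following cases.
* `k = ℚ`, `S = {p}`, `D` is the inertia group of a place above `p`.
* `k = ℚ`, `S = {p, l}` where `l ≠ p` is a prime number which is not `1` modulo `p` or modulo which
  `p` is not a `p`-th power, and `D` is the decomposition group of a place above `p`.
* `k` is any totally complex number field with one prime above `p`, `p` does not divide the class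
  number of `k`, `S = {p}`, `D` is the inertia group of a place above `p`. For example `k = ℚ(ζ_p)` for a
  regular prime `p ≥ 3` and `K = ℚ(ζ_{p^r})`, or any CM field `k` and any large `p` with one prime above
  it.
* `k` is any number field with one prime above `p`, `S = {p}`, `D` is the inertia group of a place
  above `p`, and `|discr k|^p` is smaller than the lower bound of Minkowski for the discriminants of
  the number fields of degree `[k : ℚ] p`. In particular:
  - `k = ℚ(ζ_p)` for `p = 3, 5, 7`, for example `K = ℚ(ζ_{p^r})`,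
  - `k` is imaginary quadratic, with discriminant at least `-9`, `p ≥ 3` is not split in `k`.

Proof. A proper closed subgroup of a pro-`p` group is contained in a normal subgroup of index `p`,
which gives the statement about the images (Burnside, Shafarevich). The structure theorem is Clifford
theory for groups which act through pro-`p` groups; finally `D` total is checked with the theorem 94
of Hilbert or the bound of Minkowski for the discriminant, and for `S = {p, l}` with the theory of
tamely ramified extensions.
-/

set_option autoImplicit false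

namespace Pool.Agent.Results.MP_adf543_nt.InertiaAtOnePlace

open NumberField Matrix

/-- The absolute Galois group of `k`. -/
abbrev AbsGal (k : Type) [Field k] : Type := Gal(AlgebraicClosure k/k)

/-- The ring of all algebraic integers in the algebraic closure of `k`. Its prime ideals which
contain the prime number `q` are the places of `k̄` above `q`. -/
abbrev Integers (k : Type) [Field k] : Type := 𝓞 (AlgebraicClosure k)

/-- The inertia group of `P`. -/
def Inertia {k : Type} [Field k] (P : Ideal (Integers k)) : Set (AbsGal k) :=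
  {g | ∀ x : Integers k, g • x - x ∈ P}

/-- The decomposition group of `P`. -/
def Decomposition {k : Type} [Field k] (P : Ideal (Integers k)) : Set (AbsGal k) :=
  {g | ∀ x : Integers k, g • x ∈ P ↔ x ∈ P}

/-- The union of the inertia groups of all places above the prime numbers which are not in `S`. -/
def InertiaOutside (k : Type) [Field k] (S : Set ℕ) : Set (AbsGal k) :=
  {g | ∃ q : ℕ, q.Prime ∧ q ∉ S ∧
    ∃ P : Ideal (Integers k), P.IsPrime ∧ (q : Integers k) ∈ P ∧ g ∈ Inertia P}

/-- There is no Galois extension `E / k` of degree `p`, unramified outside `S`, on which `D` acts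
trivially. (`M` is the Galois group of `k̄ / E`.) -/
def Total {k : Type} [Field k] (p : ℕ) (S : Set ℕ) (D : Set (AbsGal k)) : Prop :=
  ∀ M : Subgroup (AbsGal k), IsOpen (M : Set (AbsGal k)) → M.Normal → M.index = p →
    InertiaOutside k S ⊆ M → ¬ D ⊆ M

/-- `H` is the absolute Galois group of a field `K` which is contained in a finite Galois extension
of `k` of degree a power of `p` and unramified outside `S` (`N` is the Galois group of `k̄` over this
extension). -/
def InTower {k : Type} [Field k] (p : ℕ) (S : Set ℕ) (H : Subgroup (AbsGal k)) : Prop :=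
  ∃ N : Subgroup (AbsGal k), N ≤ H ∧ N.Normal ∧ IsOpen (N : Set (AbsGal k)) ∧
    (∃ a : ℕ, N.index = p ^ a) ∧ InertiaOutside k S ⊆ N

section

variable {k : Type} [Field k] {p : ℕ} [Fact p.Prime] {n : ℕ} {H : Subgroup (AbsGal k)}

/-- The representation `R` of `H = G_K` over `ℚ̄_p` is continuous, residually unipotent (all
eigenvalues of all `R(h)` are congruent to `1` modulo the maximal ideal) and unramified outside
`S`. -/
structure Admissible (S : Set ℕ) (R : H →* GL (Fin n) (PadicAlgCl p)) : Prop where
  continuous : ∀ i j, Continuous fun h : H => (R h : Matrix (Fin n) (Fin n) (PadicAlgCl p)) i j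
  unipotent : ∀ h : H, ∀ μ ∈ (R h : Matrix (Fin n) (Fin n) (PadicAlgCl p)).charpoly.roots,
    ‖μ - 1‖ < 1
  unramified : ∀ h : H, (h : AbsGal k) ∈ InertiaOutside k S → R h = 1

/-- The subspace `U` is stable under the subgroup `L`. -/
def Stable (R : H →* GL (Fin n) (PadicAlgCl p)) (L : Subgroup H)
    (U : Submodule (PadicAlgCl p) (Fin n → PadicAlgCl p)) : Prop :=
  ∀ h ∈ L, ∀ u ∈ U, (R h : Matrix (Fin n) (Fin n) (PadicAlgCl p)) *ᵥ u ∈ U

/-- `R` is irreducible. -/
def Irreducible (R : H →* GL (Fin n) (PadicAlgCl p)) : Prop :=
  0 < n ∧ ∀ U, Stable R ⊤ U → U = ⊥ ∨ U = ⊤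

/-- `U` is potentially stable under `D`: it is stable under a subgroup `D'` of `H`, finitely many
left cosets of which cover `D ∩ H`. -/
def PotentiallyStable (R : H →* GL (Fin n) (PadicAlgCl p)) (D : Set (AbsGal k))
    (U : Submodule (PadicAlgCl p) (Fin n → PadicAlgCl p)) : Prop :=
  ∃ (D' : Subgroup H) (T : Set H), T.Finite ∧
    (∀ δ : H, (δ : AbsGal k) ∈ D → ∃ r ∈ T, r⁻¹ * δ ∈ D') ∧ Stable R D' U

/-- `R` is induced from the representation `V'` of the open subgroup `L`: `V'` is stable under `L`, and
`R` is the direct sum of the `[H : L]` translates of `V'` (it is their sum, and the dimension of `R` is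
the sum of their dimensions). The fixed field of `L` is contained in a finite Galois extension of `K`
of degree a power of `p`. -/
structure InducedFrom (R : H →* GL (Fin n) (PadicAlgCl p)) (L : Subgroup H)
    (V' : Submodule (PadicAlgCl p) (Fin n → PadicAlgCl p)) : Prop where
  isOpen : IsOpen (L : Set H)
  index : ∃ a : ℕ, L.normalCore.index = p ^ a
  stable : Stable R L V'
  dim : n = L.index * Module.finrank (PadicAlgCl p) V'
  sum : ∀ W : Submodule (PadicAlgCl p) (Fin n → PadicAlgCl p),
    (∀ h : H, ∀ v ∈ V', (R h : Matrix (Fin n) (Fin n) (PadicAlgCl p)) *ᵥ v ∈ W) → W = ⊤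

/-- `R` is monomial: induced from a character of an open subgroup `L` of index `n`. The fixed field
of `L` is contained in a finite Galois extension of `K` of degree a power of `p`. -/
def Monomial (R : H →* GL (Fin n) (PadicAlgCl p)) : Prop :=
  ∃ (L : Subgroup H) (u : Fin n → PadicAlgCl p), u ≠ 0 ∧
    InducedFrom R L (Submodule.span (PadicAlgCl p) {u}) ∧ L.index = n ∧
    ∀ h ∈ L, ∃ c : PadicAlgCl p, (R h : Matrix (Fin n) (Fin n) (PadicAlgCl p)) *ᵥ u = c • u

end

/-- The space `ℚ̄_p ^ n`. -/
abbrev Space (p : ℕ) [Fact p.Prime] (n : ℕ) : Type := Fin n → PadicAlgCl p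

section

variable {k : Type} [Field k] (p : ℕ) [Fact p.Prime] (S : Set ℕ) (D : Set (AbsGal k))
  (H : Subgroup (AbsGal k))

/-- The images of `D ∩ H` and of `H` are the same, even for two representations simultaneously. -/
def SameImage : Prop :=
  ∀ (n m : ℕ) (R : H →* GL (Fin n) (PadicAlgCl p)) (R' : H →* GL (Fin m) (PadicAlgCl p)),
    Admissible S R → Admissible S R' →
      ∀ h : H, ∃ δ : H, (δ : AbsGal k) ∈ D ∧ R δ = R h ∧ R' δ = R' h

/-- A linear map between two representations which commutes with `D ∩ H` commutes with `H`. -/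
def SameHom : Prop :=
  ∀ (n m : ℕ) (R : H →* GL (Fin n) (PadicAlgCl p)) (R' : H →* GL (Fin m) (PadicAlgCl p)),
    Admissible S R → Admissible S R' → ∀ A : Matrix (Fin m) (Fin n) (PadicAlgCl p),
      (∀ δ : H, (δ : AbsGal k) ∈ D → A * (R δ).val = (R' δ).val * A) →
      ∀ h : H, A * (R h).val = (R' h).val * A

/-- An irreducible representation is induced from a representation `V'` which is strongly irreducible
on `D`: no nontrivial subspace of `V'` is potentially stable under `D`. The dimension of `V'` divides
the dimensions of all subspaces which are potentially stable under `D`. -/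
def InducedFromStrong : Prop :=
  ∀ (n : ℕ) (R : H →* GL (Fin n) (PadicAlgCl p)), Admissible S R → Irreducible R →
    ∃ (L : Subgroup H) (V' : Submodule (PadicAlgCl p) (Space p n)),
      InducedFrom R L V' ∧ V' ≠ ⊥ ∧
      (∀ U ≤ V', PotentiallyStable R D U → U = ⊥ ∨ U = V') ∧
      ∀ U, PotentiallyStable R D U →
        Module.finrank (PadicAlgCl p) V' ∣ Module.finrank (PadicAlgCl p) U

/-- An irreducible representation of dimension prime to `p` is strongly irreducible on `D`. -/
def StrongIfPrimeToP : Prop :=
  ∀ (n : ℕ) (R : H →* GL (Fin n) (PadicAlgCl p)), Admissible S R → Irreducible R →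
    ¬ p ∣ n → ∀ U, PotentiallyStable R D U → U = ⊥ ∨ U = ⊤

/-- An irreducible representation with a line which is potentially stable under `D` is monomial. -/
def MonomialIfLine : Prop :=
  ∀ (n : ℕ) (R : H →* GL (Fin n) (PadicAlgCl p)), Admissible S R → Irreducible R →
    ∀ U : Submodule (PadicAlgCl p) (Space p n),
      Module.finrank (PadicAlgCl p) U = 1 → PotentiallyStable R D U → Monomial R

/-- The subgroup `D` governs the admissible representations of `H` over `ℚ̄_p`. -/
structure Governs : Prop where
  image : SameImage p S D H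
  hom : SameHom p S D H
  induced : InducedFromStrong p S D H
  prime_to_p : StrongIfPrimeToP p S D H
  line : MonomialIfLine p S D H

end

/-- There is only one prime of `k` above `p`. -/
def OnePrime (k : Type) [Field k] (p : ℕ) : Prop :=
  ∀ P Q : Ideal (𝓞 k), P.IsPrime → Q.IsPrime → (p : 𝓞 k) ∈ P → (p : 𝓞 k) ∈ Q → P = Q

/-- `D` is the inertia group or the decomposition group of a place `P`. -/
def IsLocal {k : Type} [Field k] (D : Set (AbsGal k)) : Prop :=
  ∃ P : Ideal (Integers k), P.IsPrime ∧ (D = Inertia P ∨ D = Decomposition P)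

/-- The inertia groups of the places above `p` are total for `S = {p}`. -/
def TotalAt (k : Type) [Field k] (p : ℕ) : Prop :=
  ∀ P : Ideal (Integers k), P.IsPrime → (p : Integers k) ∈ P → Total p {p} (Inertia P)

/-- The prime number `l ≠ p` is not `1` modulo `p`, or `p` is not a `p`-th power modulo `l`. -/
def Suitable (p l : ℕ) : Prop :=
  l.Prime ∧ p ≠ l ∧ (p ∣ l - 1 → (p : ZMod l) ^ ((l - 1) / p) ≠ 1)

/-- `|discr k| ^ p` is smaller than the lower bound of Minkowski for the discriminants of the number
fields of degree `N = [k : ℚ] p`. -/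
def MinkowskiSmall (k : Type) [Field k] [NumberField k] (p : ℕ) : Prop :=
  ∀ N : ℕ, N = Module.finrank ℚ k * p →
    |(discr k : ℝ)| ^ p * ((4 / Real.pi) ^ N * (N.factorial : ℝ) ^ 2) < (N : ℝ) ^ (2 * N)

open Pool.Agent.L0h46.AP Pool.Agent.L0h46.TS

theorem total_coe {k : Type} [Field k] {p : ℕ} {S : Set ℕ} {D : Set (AbsGal k)}
    {D' : Subgroup (AbsGal k)} (hD : D = D') (h : Total p S D) (M : Subgroup (AbsGal k))
    (hMo : IsOpen (M : Set (AbsGal k))) (hMn : M.Normal) (hMi : M.index = p)
    (hMS : InertiaOutside k S ⊆ (M : Set (AbsGal k))) : ¬ D' ≤ M := by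
  intro hle
  refine h M hMo hMn hMi hMS ?_
  rw [hD]
  exact hle

theorem adm {k : Type} [Field k] {p : ℕ} [Fact p.Prime] {n : ℕ} {H : Subgroup (AbsGal k)}
    {S : Set ℕ} {R : H →* GL (Fin n) (PadicAlgCl p)} (hR : Admissible S R) :
    Adm p (InertiaOutside k S) R where
  cont := hR.continuous
  prop := fun h => pow_tendsto_padic _ (hR.unipotent h)
  unr := hR.unramified

theorem stab_iff {k : Type} [Field k] {p : ℕ} [Fact p.Prime] {n : ℕ} {H : Subgroup (AbsGal k)}
    {R : H →* GL (Fin n) (PadicAlgCl p)} {L : Subgroup H}
    {U : Submodule (PadicAlgCl p) (Fin n → PadicAlgCl p)} :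
    Stab (lin R) L U ↔ Stable R L U := by
  constructor
  · intro h g hg u hu
    rw [← lin_apply]
    exact h g hg u hu
  · intro h g hg u hu
    rw [lin_apply]
    exact h g hg u hu

theorem governs {k : Type} [Field k] [NumberField k] (p : ℕ) [hp : Fact p.Prime] (S : Set ℕ)
    (D : Set (AbsGal k)) (hDl : IsLocal D) (hT : Total p S D) (H : Subgroup (AbsGal k))
    (hH : InTower p S H) : Governs p S D H := by
  obtain ⟨N, hNH, hN, hNo, hNi, hNu⟩ := hH
  obtain ⟨D', hD', hcl⟩ : ∃ D' : Subgroup (AbsGal k), D = D' ∧ IsClosed (D' : Set (AbsGal k)) := by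
    obtain ⟨P, -, hP | hP⟩ := hDl
    · exact ⟨Ine P, hP, Ine_closed P⟩
    · exact ⟨Dec P, hP, Dec_closed P⟩
  have hfull := total_coe hD' hT
  have hconj : ∀ g : AbsGal k, ∀ u ∈ InertiaOutside k S, g * u * g⁻¹ ∈ InertiaOutside k S :=
    fun g u hu => Ram_conj S g u hu
  have himage : ∀ (n m : ℕ) (R : H →* GL (Fin n) (PadicAlgCl p))
      (R' : H →* GL (Fin m) (PadicAlgCl p)), Admissible S R → Admissible S R' →
      ∀ h : H, ∃ δ : H, (δ : AbsGal k) ∈ D ∧ R δ = R h ∧ R' δ = R' h := by
    intro n m R R' hR hR' h
    obtain ⟨δ, hδ, h1, h2⟩ := image_two hconj hcl hfull hNH hNo hNi hNu (adm hR) (adm hR') h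
    exact ⟨δ, by rw [hD']; exact hδ, h1, h2⟩
  have hpot : ∀ (n : ℕ) (R : H →* GL (Fin n) (PadicAlgCl p))
      (U : Submodule (PadicAlgCl p) (Fin n → PadicAlgCl p)), PotentiallyStable R D U →
      Pot R (D' : Set (AbsGal k)) U := by
    rintro n R U ⟨D₁, T, hTf, h1, h2⟩
    exact ⟨D₁, T, hTf, fun δ hδ => h1 δ (by rw [hD']; exact hδ), stab_iff.2 h2⟩
  have hind : ∀ (n : ℕ) (R : H →* GL (Fin n) (PadicAlgCl p)), Admissible S R → Irreducible R →
      ∃ (L : Subgroup H) (V' : Submodule (PadicAlgCl p) (Fin n → PadicAlgCl p)),
      InducedFrom R L V' ∧ V' ≠ ⊥ ∧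
      (∀ U ≤ V', PotentiallyStable R D U → U = ⊥ ∨ U = V') ∧
      ∀ U, PotentiallyStable R D U →
        Module.finrank (PadicAlgCl p) V' ∣ Module.finrank (PadicAlgCl p) U := by
    intro n R hR hirr
    have hirr' : Irr (lin R) := by
      refine ⟨?_, fun U hU => hirr.2 U (stab_iff.1 hU)⟩
      have h0 := hirr.1
      have : Nonempty (Fin n) := ⟨⟨0, h0⟩⟩
      exact top_ne_bot
    obtain ⟨L, V', h1, h2, h3, h4, h5, h6, h7, h8⟩ :=
      structure_theorem hconj hcl hfull hNH hNo hNi hNu (adm hR) hirr'
    refine ⟨L, V', ⟨h1, h2, stab_iff.1 h4, h5, ?_⟩, h3, fun U hU hUp => h7 U hU (hpot n R U hUp),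
      fun U hUp => h8 U (hpot n R U hUp)⟩
    intro W hW
    rw [eq_top_iff, ← h6, iSup_le_iff]
    rintro h _ ⟨v, hv, rfl⟩
    rw [lin_apply]
    exact hW h v hv
  refine ⟨himage, ?_, hind, ?_, ?_⟩
  · intro n m R R' hR hR' A hA h
    obtain ⟨δ, hδ, h1, h2⟩ := himage n m R R' hR hR' h
    rw [← h1, ← h2]
    exact hA δ hδ
  · intro n R hR hirr hpn U hU
    obtain ⟨L, V', hI, h3, h7, h8⟩ := hind n R hR hirr
    obtain ⟨a, ha⟩ := hI.index
    have h9 : L.index ∣ p ^ a := by
      rw [← ha]
      exact Subgroup.index_dvd_of_le (Subgroup.normalCore_le L)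
    obtain ⟨b, -, hb⟩ := (Nat.dvd_prime_pow hp.out).1 h9
    have h10 : b = 0 := by
      by_contra hb0
      refine hpn ?_
      rw [hI.dim, hb]
      exact (dvd_pow_self p hb0).mul_right _
    rw [h10, pow_zero] at hb
    have h11 : V' = ⊤ := by
      rcases hirr.2 V' (by
        have h12 : L = ⊤ := Subgroup.index_eq_one.1 hb
        rw [← h12]
        exact hI.stable) with h | h
      · exact absurd h h3
      · exact h
    rw [h11] at h7
    exact h7 U le_top hU
  · intro n R hR hirr U hU1 hU
    obtain ⟨L, V', hI, h3, h7, h8⟩ := hind n R hR hirr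
    have h9 := h8 U hU
    rw [hU1, Nat.dvd_one] at h9
    obtain ⟨u, hu0, hu⟩ := finrank_eq_one_iff'.1 h9
    have h10 : Submodule.span (PadicAlgCl p) {(u : Fin n → PadicAlgCl p)} = V' := by
      refine le_antisymm (Submodule.span_le.2 (Set.singleton_subset_iff.2 u.2)) ?_
      intro w hw
      obtain ⟨c, hc⟩ := hu ⟨w, hw⟩
      rw [Submodule.mem_span_singleton]
      exact ⟨c, congrArg Subtype.val hc⟩
    refine ⟨L, u, fun h => hu0 (Subtype.ext h), by rw [h10]; exact hI, ?_, ?_⟩
    · have h11 := hI.dim
      rw [h9, mul_one] at h11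
      exact h11.symm
    · intro h hh
      obtain ⟨c, hc⟩ := hu ⟨_, hI.stable h hh u u.2⟩
      exact ⟨c, (congrArg Subtype.val hc).symm⟩

/-- **Residually unipotent representations are governed by the inertia group of one place.** -/
theorem result :
    -- the theorem for total `D`
    (∀ (k : Type) [Field k] [NumberField k] (p : ℕ) [Fact p.Prime] (S : Set ℕ)
      (D : Set (AbsGal k)), IsLocal D → Total p S D →
      ∀ H : Subgroup (AbsGal k), InTower p S H → Governs p S D H) ∧
    -- `k = ℚ` and `S = {p}`
    (∀ (p : ℕ) [Fact p.Prime], TotalAt ℚ p) ∧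
    -- `k = ℚ` and `S = {p, l}`
    (∀ (p : ℕ) [Fact p.Prime] (l : ℕ), Suitable p l →
      ∀ P : Ideal (Integers ℚ), P.IsPrime → (p : Integers ℚ) ∈ P →
        Total p {p, l} (Decomposition P)) ∧
    -- any number field with one prime above `p` and small discriminant
    (∀ (k : Type) [Field k] [NumberField k] (p : ℕ) [Fact p.Prime], OnePrime k p →
      MinkowskiSmall k p → TotalAt k p) ∧
    -- the cyclotomic fields `ℚ(ζ_3)`, `ℚ(ζ_5)`, `ℚ(ζ_7)`
    (∀ (p : ℕ) [Fact p.Prime], p = 3 ∨ p = 5 ∨ p = 7 → ∀ (k : Type) [Field k] [NumberField k]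
      [IsCyclotomicExtension {p} ℚ k], TotalAt k p) ∧
    -- imaginary quadratic fields of discriminant at least `-9`
    (∀ (k : Type) [Field k] [NumberField k] [IsTotallyComplex k], Module.finrank ℚ k = 2 →
      |discr k| ≤ 9 → ∀ (p : ℕ) [Fact p.Prime], 3 ≤ p → OnePrime k p → TotalAt k p) ∧
    -- totally complex fields with one prime above `p` and class number prime to `p`
    (∀ (k : Type) [Field k] [NumberField k] [IsTotallyComplex k] (p : ℕ) [Fact p.Prime],
      ¬ p ∣ classNumber k → OnePrime k p → TotalAt k p) := by
  refine ⟨fun k _ _ p _ S D hD hT H hH => governs p S D hD hT H hH, ?_, ?_, ?_, ?_, ?_, ?_⟩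
  · intro p _ P hP hpP M h1 h2 h3 h4
    exact fullQ hP hpP M h1 h2 h3 h4
  · intro p _ l hl P hP hpP M h1 h2 h3 h4
    exact fullQ2 hl.1 hl.2.1 hl.2.2 hP hpP M h1 h2 h3 h4
  · intro k _ _ p _ hu hk P hP hpP M h1 h2 h3 h4
    exact full_mink rfl (hk _ rfl) hu hP hpP M h1 h2 h3 h4
  · intro p _ hp357 k _ _ _ P hP hpP M h1 h2 h3 h4
    exact full_cyc hp357 hP hpP M h1 h2 h3 h4
  · intro k _ _ _ hk2 hk p _ hp3 hu P hP hpP M h1 h2 h3 h4
    exact full_small hk2 hk hp3 hu hP hpP M h1 h2 h3 h4
  · intro k _ _ _ p _ hk hu P hP hpP M h1 h2 h3 h4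
    exact full_class hk hu hP hpP M h1 h2 h3 h4

end Pool.Agent.Results.MP_adf543_nt.InertiaAtOnePlace
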